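import Pool.Agent.Helper58.FX.Defs

set_option autoImplicit false
open MeasureTheory Filter Topology
open scoped InnerProductSpace ComplexConjugate ENNReal

/-! FX-2: returns of compact vectors have positive lower density. -/

namespace Helper51.FX
open Helper58.FX

variable {H : Type*} [NormedAddCommGroup H] [InnerProductSpace ℂ H]
  {U V : H →ₗᵢ[ℂ] H}

theorem act_add (hUV : Commute U V) (u r : ℕ × ℕ) (v : H) :
    act U V (u + r) v = act U V r (act U V u v) := by
  have h : act U V (u + r) = act U V r * act U V u := by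
    unfold act
    have hc : V ^ r.2 * U ^ u.1 = U ^ u.1 * V ^ r.2 := (hUV.pow_pow u.1 r.2).symm.eq
    calc U ^ (u + r).1 * V ^ (u + r).2 = U ^ (r.1 + u.1) * V ^ (r.2 + u.2) := by
          rw [Prod.fst_add, Prod.snd_add, add_comm u.1, add_comm u.2]
      _ = U ^ r.1 * (U ^ u.1 * V ^ r.2) * V ^ u.2 := by
          rw [pow_add, pow_add]; simp only [mul_assoc]
      _ = U ^ r.1 * (V ^ r.2 * U ^ u.1) * V ^ u.2 := by rw [hc]
      _ = U ^ r.1 * V ^ r.2 * (U ^ u.1 * V ^ u.2) := by simp only [mul_assoc]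
  rw [h]
  rfl

theorem pow_eig {W : H →ₗᵢ[ℂ] H} {α : ℂ} {v : H} (h : W v = α • v) (k : ℕ) :
    (W ^ k) v = α ^ k • v := by
  induction k with
  | zero => simp
  | succ k ih =>
    rw [pow_succ']
    show W ((W ^ k) v) = _
    rw [ih, map_smul, h, smul_smul, pow_succ]

theorem act_eig {α β : ℂ} {v : H} (h : v ∈ Eg U V α β) (s : ℕ × ℕ) :
    act U V s v = (α ^ s.1 * β ^ s.2) • v := by
  obtain ⟨h1, h2⟩ := mem_Eg.1 h
  show (U ^ s.1) ((V ^ s.2) v) = _
  rw [pow_eig h2, map_smul, pow_eig h1, smul_smul, mul_comm]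

/-- orbits -/
def Orb (U V : H →ₗᵢ[ℂ] H) (v : H) : Set H := Set.range fun s : ℕ × ℕ => act U V s v

theorem tb_eig {α β : ℂ} {v : H} (h : v ∈ Eg U V α β) : TotallyBounded (Orb U V v) := by
  have hK : IsCompact ((fun c : ℂ => c • v) '' Metric.closedBall (0 : ℂ) 1) :=
    (isCompact_closedBall (0 : ℂ) 1).image (continuous_id.smul continuous_const)
  refine hK.totallyBounded.subset ?_
  rintro _ ⟨s, rfl⟩
  by_cases hv : v = 0
  · exact ⟨0, by simp, by simp [hv]⟩
  · refine ⟨α ^ s.1 * β ^ s.2, ?_, (act_eig h s).symm⟩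
    have h1 : ‖act U V s v‖ = ‖v‖ := (act U V s).norm_map v
    rw [act_eig h s, norm_smul] at h1
    have h2 : ‖α ^ s.1 * β ^ s.2‖ = 1 := by
      have hv' : ‖v‖ ≠ 0 := norm_ne_zero_iff.2 hv
      exact mul_right_cancel₀ hv' (by rw [h1, one_mul])
    rw [mem_closedBall_zero_iff]
    exact h2.le

variable [CompleteSpace H]

theorem tb_add {v w : H} (hv : TotallyBounded (Orb U V v)) (hw : TotallyBounded (Orb U V w)) :
    TotallyBounded (Orb U V (v + w)) := by
  have h1 : IsCompact (closure (Orb U V v)) :=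
    hv.closure.isCompact_of_isClosed isClosed_closure
  have h2 : IsCompact (closure (Orb U V w)) :=
    hw.closure.isCompact_of_isClosed isClosed_closure
  refine (h1.add h2).totallyBounded.subset ?_
  rintro _ ⟨s, rfl⟩
  exact ⟨_, subset_closure ⟨s, rfl⟩, _, subset_closure ⟨s, rfl⟩, (map_add _ _ _).symm⟩

theorem tb_smul (c : ℂ) {v : H} (hv : TotallyBounded (Orb U V v)) :
    TotallyBounded (Orb U V (c • v)) := by
  have h1 : IsCompact (closure (Orb U V v)) :=
    hv.closure.isCompact_of_isClosed isClosed_closure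
  refine (h1.image (continuous_const_smul c)).totallyBounded.subset ?_
  rintro _ ⟨s, rfl⟩
  exact ⟨_, subset_closure ⟨s, rfl⟩, (map_smul _ _ _).symm⟩

theorem tb_span {v : H} (hv : v ∈ Submodule.span ℂ {v | ∃ α β : ℂ, v ∈ Eg U V α β}) :
    TotallyBounded (Orb U V v) := by
  induction hv using Submodule.span_induction with
  | mem x h =>
    obtain ⟨α, β, h⟩ := h
    exact tb_eig h
  | zero => exact tb_eig (Submodule.zero_mem (Eg U V 1 1))
  | add x y _ _ hx hy => exact tb_add hx hy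
  | smul a x _ hx => exact tb_smul a hx

theorem exists_reps {v : H} (hv : v ∈ Hc U V) {δ : ℝ} (hδ : 0 < δ) :
    ∃ R : Finset (ℕ × ℕ), ∀ s : ℕ × ℕ, ∃ r ∈ R, ‖act U V s v - act U V r v‖ ≤ δ := by
  classical
  have hv' : v ∈ closure (Submodule.span ℂ {v | ∃ α β : ℂ, v ∈ Eg U V α β} : Set H) := hv
  obtain ⟨w, hw, hvw⟩ := Metric.mem_closure_iff.1 hv' (δ / 4) (by positivity)
  rw [dist_eq_norm] at hvw
  obtain ⟨t, hts, htf, hcov⟩ := (tb_span hw).exists_subset (Metric.dist_mem_uniformity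
    (show (0 : ℝ) < δ / 4 by positivity))
  have hch : ∀ y : H, ∃ r : ℕ × ℕ, y ∈ t → act U V r w = y := by
    intro y
    by_cases hy : y ∈ t
    · obtain ⟨r, hr⟩ := hts hy
      exact ⟨r, fun _ => hr⟩
    · exact ⟨0, fun h => absurd h hy⟩
  choose g hg using hch
  refine ⟨htf.toFinset.image g, fun s => ?_⟩
  have hs := hcov (show act U V s w ∈ Orb U V w from ⟨s, rfl⟩)
  simp only [Set.mem_iUnion] at hs
  obtain ⟨y, hy, hsy⟩ := hs
  refine ⟨g y, Finset.mem_image_of_mem g (htf.mem_toFinset.2 hy), ?_⟩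
  have h1 : ‖act U V s w - y‖ < δ / 4 := by
    have : dist (act U V s w) y < δ / 4 := hsy
    rwa [dist_eq_norm] at this
  have h2 : ‖act U V s v - act U V s w‖ < δ / 4 := by
    rw [← map_sub, LinearIsometry.norm_map]
    exact hvw
  have h3 : ‖act U V (g y) v - act U V (g y) w‖ < δ / 4 := by
    rw [← map_sub, LinearIsometry.norm_map]
    exact hvw
  rw [hg y hy] at h3
  calc ‖act U V s v - act U V (g y) v‖
      = ‖(act U V s v - act U V s w) + (act U V s w - y) - (act U V (g y) v - y)‖ := by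
        congr 1; abel
    _ ≤ ‖(act U V s v - act U V s w) + (act U V s w - y)‖ + ‖act U V (g y) v - y‖ :=
        norm_sub_le _ _
    _ ≤ ‖act U V s v - act U V s w‖ + ‖act U V s w - y‖ + ‖act U V (g y) v - y‖ := by
        gcongr; exact norm_add_le _ _
    _ ≤ δ := by linarith

/-- FX-2 -/
theorem bohr (hUV : Commute U V) {v : H} (hv : v ∈ Hc U V) {δ : ℝ} (hδ : 0 < δ) :
    ∃ d : ℝ, 0 < d ∧ Low {s | ‖act U V s v - v‖ ≤ δ} d := by
  classical
  obtain ⟨R, hR⟩ := exists_reps hv hδ
  have hRne : R.Nonempty := by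
    obtain ⟨r, hr, _⟩ := hR 0
    exact ⟨r, hr⟩
  have hRc : (0 : ℝ) < R.card := by exact_mod_cast hRne.card_pos
  obtain ⟨L, hL⟩ : ∃ L : ℕ, ∀ r ∈ R, r.1 ≤ L ∧ r.2 ≤ L :=
    ⟨R.sup (fun r => max r.1 r.2), fun r hr => by
      have := Finset.le_sup (f := fun r : ℕ × ℕ => max r.1 r.2) hr
      exact ⟨(le_max_left _ _).trans this, (le_max_right _ _).trans this⟩⟩
  refine ⟨1 / (4 * R.card), by positivity, ?_⟩
  unfold Low
  filter_upwards [eventually_ge_atTop (2 * L)] with N hN
  set Q : Set (ℕ × ℕ) := {s | ‖act U V s v - v‖ ≤ δ} with hQ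
  have hsub : (Finset.Ico L N) ×ˢ (Finset.Ico L N) ⊆
      R.biUnion fun r => ((box N).filter (fun s => s ∈ Q)).image (fun u => u + r) := by
    intro s hs
    rw [Finset.mem_product, Finset.mem_Ico, Finset.mem_Ico] at hs
    obtain ⟨r, hr, hsr⟩ := hR s
    obtain ⟨h1, h2⟩ := hL r hr
    rw [Finset.mem_biUnion]
    refine ⟨r, hr, ?_⟩
    rw [Finset.mem_image]
    have hs' : s - r + r = s := by
      ext
      · show s.1 - r.1 + r.1 = s.1
        omega
      · show s.2 - r.2 + r.2 = s.2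
        omega
    refine ⟨s - r, ?_, hs'⟩
    rw [Finset.mem_filter]
    constructor
    · unfold box
      rw [Finset.mem_product, Finset.mem_range, Finset.mem_range]
      constructor
      · show s.1 - r.1 < N
        omega
      · show s.2 - r.2 < N
        omega
    · show ‖act U V (s - r) v - v‖ ≤ δ
      have h3 : act U V s v = act U V r (act U V (s - r) v) := by
        rw [← act_add hUV, hs']
      rw [h3, ← map_sub, LinearIsometry.norm_map] at hsr
      exact hsr
  have hcard : ((N - L) * (N - L) : ℕ) ≤ R.card * ((box N).filter (fun s => s ∈ Q)).card := by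
    have h1 := Finset.card_le_card hsub
    rw [Finset.card_product, Nat.card_Ico] at h1
    refine h1.trans ((Finset.card_biUnion_le).trans ?_)
    refine (Finset.sum_le_sum fun r _ => Finset.card_image_le).trans ?_
    rw [Finset.sum_const, smul_eq_mul]
  have hcnt : cnt Q N = (((box N).filter (fun s => s ∈ Q)).card : ℝ) := by
    unfold cnt
    congr
  rw [hcnt]
  have hcard' : ((N : ℝ) - L) * ((N : ℝ) - L)
      ≤ R.card * (((box N).filter (fun s => s ∈ Q)).card : ℝ) := by
    have : (((N - L) * (N - L) : ℕ) : ℝ)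
        ≤ ((R.card * ((box N).filter (fun s => s ∈ Q)).card : ℕ) : ℝ) := by exact_mod_cast hcard
    push_cast [Nat.cast_sub (show L ≤ N by omega)] at this
    exact this
  have hN' : 2 * (L : ℝ) ≤ N := by exact_mod_cast hN
  have hN2 : (N : ℝ) ^ 2 / 4 ≤ ((N : ℝ) - L) * ((N : ℝ) - L) := by
    have hL0 : (0 : ℝ) ≤ L := Nat.cast_nonneg L
    nlinarith
  rw [div_mul_eq_mul_div, one_mul, div_le_iff₀ (by positivity)]
  linarith

end Helper51.FX
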