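import Mathlib
import Pool.Agent.Helper58.FX.Defs

set_option autoImplicit false
open MeasureTheory Filter Topology Helper17 Helper17.FU Helper17.FUGroup Helper91.TTT
open scoped InnerProductSpace ComplexConjugate ENNReal ComplexOrder

/-! FX-24: limits of traces. -/

namespace Helper51.FX
open Helper58.FX

variable {s2 s3 t : Equiv.Perm ℚ}

lemma sum_mul_le (g : ℕ → ℝ) (hg : ∀ n, 0 ≤ g n) {k : ℕ} (hk : 0 < k) (L : ℕ) :
    ∑ i ∈ Finset.range L, g (k * i) ≤ ∑ i ∈ Finset.range (k * L), g i := by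
  classical
  have hinj : Set.InjOn (fun i : ℕ => k * i) (Finset.range L : Set ℕ) := by
    intro a _ b _ hab
    exact Nat.eq_of_mul_eq_mul_left hk hab
  have h1 : ∑ i ∈ (Finset.range L).image (fun i : ℕ => k * i), g i
      = ∑ i ∈ Finset.range L, g (k * i) := Finset.sum_image hinj
  rw [← h1]
  refine Finset.sum_le_sum_of_subset_of_nonneg ?_ (fun i _ _ => hg i)
  intro i hi
  rw [Finset.mem_image] at hi
  obtain ⟨a, ha, rfl⟩ := hi
  rw [Finset.mem_range] at ha ⊢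
  exact Nat.mul_lt_mul_of_pos_left ha hk

lemma double_le (f : ℤ → ℝ) (hf : ∀ n, 0 ≤ f n) {k : ℕ} (hk : 0 < k) (L : ℕ) :
    ∑ i ∈ Finset.range L, ∑ j ∈ Finset.range L, f ((k : ℤ) * ((i : ℤ) - j))
      ≤ ∑ i ∈ Finset.range (k * L), ∑ j ∈ Finset.range (k * L), f ((i : ℤ) - j) := by
  have h1 : ∀ i : ℕ, ∑ j ∈ Finset.range L, f ((k : ℤ) * ((i : ℤ) - j))
      ≤ ∑ j ∈ Finset.range (k * L), f (((k * i : ℕ) : ℤ) - j) := by
    intro i
    have := sum_mul_le (fun j : ℕ => f (((k * i : ℕ) : ℤ) - j)) (fun j => hf _) hk L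
    refine le_trans (le_of_eq (Finset.sum_congr rfl fun j _ => ?_)) this
    congr 1
    push_cast
    ring
  refine (Finset.sum_le_sum fun i _ => h1 i).trans ?_
  exact sum_mul_le (fun i : ℕ => ∑ j ∈ Finset.range (k * L), f ((i : ℤ) - j))
    (fun i => Finset.sum_nonneg fun j _ => hf _) hk L

lemma ww_le {G : Type*} [Group G] (ψ : G → ℂ) (τ : G) (m : ℤ) (hm : m ≠ 0) (L : ℕ) :
    WW ψ (τ ^ m) L ≤ WW ψ τ (m.natAbs * L) := by
  have hk : 0 < m.natAbs := Int.natAbs_pos.2 hm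
  have h := double_le (fun n : ℤ => ‖ψ (τ ^ n)‖ ^ 2) (fun n => by positivity) hk L
  refine le_trans (le_of_eq ?_) h
  unfold WW
  rcases Int.natAbs_eq m with hm' | hm'
  · refine Finset.sum_congr rfl fun i _ => Finset.sum_congr rfl fun j _ => ?_
    rw [← zpow_mul, ← hm']
  · rw [Finset.sum_comm]
    refine Finset.sum_congr rfl fun i _ => Finset.sum_congr rfl fun j _ => ?_
    rw [← zpow_mul]
    have : m * ((j : ℤ) - i) = (m.natAbs : ℤ) * ((i : ℤ) - j) := by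
      have h1 : (m.natAbs : ℤ) = -m := by omega
      rw [h1]
      ring
    rw [this]

lemma ww_zpow {G : Type*} [Group G] (ψ : G → ℂ) (τ : G)
    (h : Tendsto (fun L : ℕ => WW ψ τ L / (L : ℝ) ^ 2) atTop (𝓝 0)) (m : ℤ) (hm : m ≠ 0) :
    Tendsto (fun L : ℕ => WW ψ (τ ^ m) L / (L : ℝ) ^ 2) atTop (𝓝 0) := by
  have hk : 0 < m.natAbs := Int.natAbs_pos.2 hm
  have hk' : (0 : ℝ) < m.natAbs := by exact_mod_cast hk
  have h1 : Tendsto (fun L : ℕ => m.natAbs * L) atTop atTop :=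
    tendsto_atTop_mono (fun L => Nat.le_mul_of_pos_left L hk) tendsto_id
  have h2 : Tendsto (fun L : ℕ => (m.natAbs : ℝ) ^ 2 *
      (WW ψ τ (m.natAbs * L) / (((m.natAbs * L : ℕ)) : ℝ) ^ 2)) atTop (𝓝 0) := by
    have := (h.comp h1).const_mul ((m.natAbs : ℝ) ^ 2)
    rw [mul_zero] at this
    exact this
  refine squeeze_zero (fun L => ?_) (fun L => ?_) h2
  · unfold WW
    positivity
  · rcases Nat.eq_zero_or_pos L with hL | hL
    · subst hL
      simp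
    · have hL' : (0 : ℝ) < L := by exact_mod_cast hL
      have h3 := ww_le ψ τ m hm L
      push_cast
      rw [mul_pow, mul_div_assoc', mul_div_mul_left _ _ (by positivity)]
      gcongr

/-- FX-24 -/
theorem trace_limit (h2 : ∀ x : ℚ, s2 x = 2 * x) (h3 : ∀ x : ℚ, s3 x = 3 * x)
    (ht : ∀ x : ℚ, t x = x + 1) {τ : GG s2 s3 t} (hτ : (τ : Equiv.Perm ℚ) = t)
    (x : ℕ → GG s2 s3 t → ℂ) (hx : ∀ i, x i ∈ TR (GG s2 s3 t))
    (hoff : ∀ i g, ¬ IsTr g → x i g = 0) {q : ℤ → ℂ} (hq : ExLike q)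
    (hlim : ∀ n : ℤ, Tendsto (fun i => x i (τ ^ n)) atTop (𝓝 (q n))) :
    ∃ ψ : GG s2 s3 t → ℂ, ψ ∈ Set.extremePoints ℝ (TR (GG s2 s3 t)) ∧
      ψ ≠ Set.indicator ({1} : Set (GG s2 s3 t)) (fun _ => (1 : ℂ)) ∧
      ¬ FiniteDimensional ℂ (Submodule.span ℂ {F : GG s2 s3 t → ℂ | ∃ n : GG s2 s3 t,
        IsTr n ∧ F = fun x => ψ (n * x)}) ∧
      (∀ g, Tendsto (fun i => x i g) atTop (𝓝 (ψ g))) ∧ ∀ n : ℤ, ψ (τ ^ n) = q n := by
  obtain ⟨σ2, σ3, τ', hσ2, hσ3, hτ', e2, e3, ecomm, hgen⟩ := relations h2 h3 ht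
  have hττ' : τ' = τ := Subtype.ext (by rw [hτ', hτ])
  rw [hττ'] at e2 e3 hgen
  have hex : ∀ g : GG s2 s3 t, ∃ z : ℂ, Tendsto (fun i => x i g) atTop (𝓝 z) := by
    intro g
    by_cases hg : IsTr g
    · obtain ⟨m, σ, hσ, -⟩ := trans_conj' h2 h3 ht hτ g hg
      refine ⟨q m, (hlim m).congr fun i => ?_⟩
      rw [hσ, (hx i).2.1]
    · exact ⟨0, tendsto_const_nhds.congr fun i => (hoff i g hg).symm⟩
  choose ψ hψ using hex
  have hψq : ∀ n : ℤ, ψ (τ ^ n) = q n := fun n => tendsto_nhds_unique (hψ _) (hlim n)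
  have hT : ψ ∈ TR (GG s2 s3 t) := by
    refine ⟨?_, ?_, ?_⟩
    · refine tendsto_nhds_unique (hψ 1) (tendsto_const_nhds.congr fun i => ?_)
      exact (hx i).1.symm
    · intro g h
      refine tendsto_nhds_unique (hψ _) ((hψ g).congr fun i => ?_)
      exact ((hx i).2.1 g h).symm
    · intro s c
      have h1 : Tendsto (fun i => ∑ a ∈ s, ∑ b ∈ s, star (c b) * c a * x i (b⁻¹ * a)) atTop
          (𝓝 (∑ a ∈ s, ∑ b ∈ s, star (c b) * c a * ψ (b⁻¹ * a))) :=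
        tendsto_finsetSum _ fun a _ => tendsto_finsetSum _ fun b _ => (hψ _).const_mul _
      exact ge_of_tendsto' h1 fun i => (hx i).2.2 s c
  have hFψ : Fact (PD ψ) := ⟨hT.2.2⟩
  obtain ⟨ν, hνp, hνq, hν2, hν3, hνa⟩ := hq.rep
  have hW1 : Tendsto (fun L : ℕ => WW ψ τ L / (L : ℝ) ^ 2) atTop (𝓝 0) := by
    refine wiener τ ν (fun n => ?_) hνa
    rw [hψq, ← hνq]
    rfl
  have hW' : ∀ m : ℤ, m ≠ 0 →
      Tendsto (fun L : ℕ => WW ψ (τ ^ m) L / (L : ℝ) ^ 2) atTop (𝓝 0) :=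
    fun m hm => ww_zpow ψ τ hW1 m hm
  refine ⟨ψ, ?_, ?_, ?_, hψ, hψq⟩
  · refine ext_criterion hT (fun g => ?_)
    by_cases hg : IsTr g
    · obtain ⟨m, σ, hσ, -⟩ := trans_conj' h2 h3 ht hτ g hg
      refine on_case hT σ2 σ3 τ e2 e3 m hσ ?_
      have e : rf ψ τ m = fun j => q (m * j) := by
        funext j
        unfold rf
        rw [hψq]
      rw [e]
      have := hq.erg m
      simpa using this
    · obtain ⟨D, hD, hconj⟩ := off_conj h2 h3 ht hτ g hg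
      exact (off_case hT hconj (hW' D hD)).2
  · intro h
    obtain ⟨n, hn, hqn⟩ := hq.ne
    apply hqn
    have h4 := congrFun h (τ ^ n)
    have h5 : τ ^ n ≠ 1 := by
      intro h6
      have h7 := congrArg (fun g : GG s2 s3 t => (g : Equiv.Perm ℚ) 0) h6
      simp only [Subgroup.coe_zpow, hτ, t_zpow ht, Subgroup.coe_one, Equiv.Perm.one_apply,
        zero_add] at h7
      exact hn (by exact_mod_cast h7)
    rw [Set.indicator_of_notMem (by simpa using h5), hψq] at h4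
    exact h4
  · refine not_fd hT τ hW' {n | IsTr n} (fun n => ⟨n, fun y => ?_⟩)
    rw [Subgroup.coe_zpow, hτ, t_zpow ht]

end Helper51.FX
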